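import Mathlib
import Pool.Agent.Helper941.Final

/-!
There is a class `K` of structures in a computable relational language, closed under
isomorphism, whose index set is only `Π⁰_2`, and whose isomorphism problem `E(K)` is properly
`Σ⁰_3` (that is, `Σ⁰_3` and not `Δ⁰_3`) but is not `Σ⁰_3`-complete.
-/

namespace Pool.Agent.Results.MP_be00aa_lc.ProperIncomplete

open Pool.Agent.Helper941.IsoProb

theorem result :
    ∃ ar : ℕ → ℕ, Computable ar ∧ ∃ K : Set (Str ar),
      (∀ A B : Str ar, A.Iso B → A ∈ K → B ∈ K) ∧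
      Pi0 2 (IndexSet K) ∧
      Sigma0 3 (IsoProblem K) ∧ ¬ Delta0 3 (IsoProblem K) ∧
      ¬ SigmaComplete 3 (IsoProblem K) := by
  obtain ⟨K, h1, h2, h3, h4, S, hS, h5⟩ := main
  exact ⟨ar2, Computable.const 2, K, h1, h2, h3, fun h => h4 h.2, fun h => h5 (h.2 S hS)⟩

end Pool.Agent.Results.MP_be00aa_lc.ProperIncomplete
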